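import Pool.Agent.H44.FB.Basics

/-!
# Rigid images (RGD)
-/

set_option autoImplicit false

namespace Pool.Agent.H70.FB

open Pool.Agent.H68.BP Pool.Agent.H58.SF Pool.Agent.H53.NR
open Pool.Agent.H53.GC (arP relP strOn sigOf)
open Pool.Agent.H53.GR (Ps Dm)
open Pool.Agent.H53.GM (Connected Avoids Val Cols DmG)
open Pool.Agent.H53.GX (FmX)
open Pool.Agent.H57.AR (tp ty Ty)
open Pool.Agent.H57.EQ (Cx)
open Pool.Agent.H57.SO (fib sigF SF)
open Pool.Agent.H57.LH (SS vs c0 Blind NCB Cor Prs tfL SyL)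
open Pool.Agent.H44.KR Pool.Agent.H44.FB
open Function Classical

variable {V : Type} {ρ σ : Sig} {𝔸 : Str σ V} {𝔹 : Str ρ V}

/-- rigidity depends only on the type of the pair -/
theorem rg_inv (ht : Tyi 𝔸 𝔹) (hE : EmbC 𝔹) {x y x' y' : V}
    (h : tp 𝔹 ![x, y] = tp 𝔹 ![x', y']) (hR : Rg 𝔸 𝔹 x y) : Rg 𝔸 𝔹 x' y' := by
  obtain ⟨α, hα, hxy⟩ := hE (Fin 2) ![x, y] ![x', y'] h
  have hx : α x = x' := hxy 0
  have hy : α y = y' := hxy 1
  have hαE : En 𝔸 𝔹 α := en_of_emb ht hα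
  intro g hg
  obtain ⟨g', hg', h1, h2⟩ := hR (fun v => g (α v)) (en_comp hg hαE)
  have h1' : g' (g (α x)) = x := h1
  have h2' : g' (g (α y)) = y := h2
  rw [hx] at h1'
  rw [hy] at h2'
  refine ⟨fun v => α (g' v), en_comp hαE hg', ?_, ?_⟩
  · show α (g' (g x')) = x'
    rw [h1', hx]
  · show α (g' (g y')) = y'
    rw [h2', hy]

instance ty_finite (ρ : Sig) (W : Type) [Finite W] : Finite (Ty ρ W) := by
  unfold Ty Str
  infer_instance

/-- rigid images of finite sets -/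
theorem rg_fin (hE : EmbC 𝔹) (ht : Tyi 𝔸 𝔹) (Y : Finset V) :
    ∃ g : V → V, En 𝔸 𝔹 g ∧ ∀ y ∈ Y, ∀ y' ∈ Y, Rg 𝔸 𝔹 (g y) (g y') := by
  let R : (V → V) → Set (Ty ρ {y // y ∈ Y}) := fun g =>
    {t | ∃ h, En 𝔸 𝔹 h ∧ t = tp 𝔹 (fun y : {y // y ∈ Y} => h (g y.1))}
  have hex : ∃ n : ℕ, ∃ g, En 𝔸 𝔹 g ∧ (R g).ncard = n := ⟨_, _, en_id 𝔸 𝔹, rfl⟩
  obtain ⟨g, hg, hn⟩ := Nat.find_spec hex
  have hmin : ∀ g', En 𝔸 𝔹 g' → (R g).ncard ≤ (R g').ncard := by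
    intro g' hg'
    rw [hn]
    exact Nat.find_min' hex ⟨g', hg', rfl⟩
  refine ⟨g, hg, fun y hy y' hy' h hh => ?_⟩
  have hsub : R (fun v => h (g v)) ⊆ R g := by
    rintro t ⟨k, hk, rfl⟩
    exact ⟨fun v => k (h v), en_comp hk hh, rfl⟩
  have heq : R (fun v => h (g v)) = R g :=
    Set.eq_of_subset_of_ncard_le hsub (hmin _ (en_comp hh hg)) (Set.toFinite _)
  have hmem : tp 𝔹 (fun y : {y // y ∈ Y} => g y.1) ∈ R g :=
    ⟨fun v => v, en_id 𝔸 𝔹, rfl⟩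
  rw [← heq] at hmem
  obtain ⟨k, hk, hkt⟩ := hmem
  obtain ⟨α, hα, hα2⟩ := hE {y // y ∈ Y} _ _ hkt.symm
  refine ⟨fun v => α (k v), en_comp (en_of_emb ht hα) hk, hα2 ⟨y, hy⟩, hα2 ⟨y', hy'⟩⟩

theorem pf_RGD : T_RGD := by
  intro V σ ρ 𝔸 𝔹 _ hcount ht hC hE
  obtain ⟨e, -, he⟩ := hC V ∅ (fun v => v) (fun Y F =>
    (∀ (l : Fin σ.m) (z : Fin (σ.ar l) → V), (∀ i, z i ∈ Y) → 𝔸 l z →
      𝔸 l (fun i => F (z i))) ∧
    (∀ v ∈ Y, ty 𝔹 (F v) = ty 𝔹 v) ∧ ∀ y ∈ Y, ∀ y' ∈ Y, Rg 𝔸 𝔹 (F y) (F y'))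
    (by
      intro Y
      obtain ⟨g, hg, hR⟩ := rg_fin (𝔸 := 𝔸) hE ht Y
      exact ⟨g, ⟨fun l z _ hz => hg.1 l z hz, fun v _ => hg.2 v, hR⟩,
        fun x hx => absurd hx (Finset.notMem_empty x)⟩)
    (by
      rintro Y Y' F hYY ⟨h1, h2, h3⟩
      exact ⟨fun l z hz hA => h1 l z (fun i => hYY (hz i)) hA, fun v hv => h2 v (hYY hv),
        fun y hy y' hy' => h3 y (hYY hy) y' (hYY hy')⟩)
    (by
      rintro Y F F' ⟨h1, h2, h3⟩ hT
      refine ⟨fun l z hz hA => ?_, fun v hv => ?_, fun y hy y' hy' => ?_⟩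
      · exact tyi_on ht hT l z (fun i => Finset.mem_coe.2 (hz i)) (h1 l z hz hA)
      · rw [← h2 v hv]
        exact (tpo_ty hT (Finset.mem_coe.2 hv)).symm
      · refine rg_inv ht hE ?_ (h3 y hy y' hy')
        have h4 := tpo_comp hT ![y, y'] (fun w => by
          fin_cases w
          · exact Finset.mem_coe.2 hy
          · exact Finset.mem_coe.2 hy')
        have e1 : (fun w => F (![y, y'] w)) = ![F y, F y'] := by
          funext w
          fin_cases w <;> rfl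
        have e2 : (fun w => F' (![y, y'] w)) = ![F' y, F' y'] := by
          funext w
          fin_cases w <;> rfl
        rw [e1, e2] at h4
        exact h4)
  refine ⟨e, ⟨fun l z hz => ?_, fun v => ?_⟩, fun x y => ?_⟩
  · exact (he (Finset.univ.image z)).1 l z
      (fun i => Finset.mem_image_of_mem z (Finset.mem_univ i)) hz
  · exact (he {v}).2.1 v (Finset.mem_singleton_self v)
  · exact (he {x, y}).2.2 x (Finset.mem_insert_self _ _) y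
      (Finset.mem_insert_of_mem (Finset.mem_singleton_self y))

end Pool.Agent.H70.FB
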